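import Mathlib
import Pool.Agent.H765R3.Had.Ill

set_option autoImplicit false

/-!
# MP_80156a_co: the bound `2 ^ d - 2 ^ (d - h)` for bodies with a symmetry group acting blockwise

Let `K` be a convex body in `ℝ^(m 0) ⊕ ... ⊕ ℝ^(m r)`, `o` an interior point, and suppose that `K`
is invariant about `o` under isometries of the single blocks such that the images of each unit
vector of the block `i` come within an angle smaller than `arcsin (1 / m i)` of each unit vector.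
Then `I(K) ≤ (m 0 + 1) * ∏_{i ≥ 1} (m i + 2)`, which is at most `2 ^ d - 2 ^ (d - h)` for every
`h ≥ 2` if all `m i ≥ 2`.

The proof, for `o = 0`. Take a regular simplex with centre `0` and vertices `D i` in each block.
The directions are `-(ε t_0, t_1, ..., t_r)` with `t_0` in `D 0` and `t_i` in `D i` or `t_i = 0` for
`i ≥ 1`, with a small `ε > 0`. Let `x` be a boundary point of `K` and `n` a normal vector at `x`.
By the symmetry `n i` has a direction close to the direction of `x i` if both are not `0`, so that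
`⟪n i, t i⟫ ≥ δ ‖n i‖` for the vertex `t i` closest to `x i`. Put `t i = 0` for `x i = 0`, `i ≥ 1`.
If `x 0 ≠ 0` all the terms of `⟪n, v⟫` are at most `0` and one is negative. If `x 0 = 0` the first
term may be positive, but it is at most `ε ‖n‖`, and the others have a sum of at most
`-(δ / R) ⟪n, x⟫ ≤ -(δ ρ / R) ‖n‖` for `B(0, ρ) ⊆ K ⊆ B(0, R)`.
-/

namespace Pool.Agent.Results.MP_80156a_co.BlockSymmetricBodies

open scoped InnerProductSpace

/-- `ℝ^(m 0) ⊕ ... ⊕ ℝ^(m r)` with its Euclidean structure. -/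
abbrev Sum {r : ℕ} (m : Fin (r + 1) → ℕ) : Type :=
  PiLp 2 fun i => EuclideanSpace ℝ (Fin (m i))

/-- Each boundary point of `K` is illuminated by a direction in `L`. -/
def Illuminates {V : Type*} [NormedAddCommGroup V] [InnerProductSpace ℝ V] (L : Finset V)
    (K : Set V) : Prop :=
  ∀ x ∈ frontier K, ∃ v ∈ L, ∃ t : ℝ, 0 < t ∧ x + t • v ∈ interior K

/-- For all unit vectors `u`, `v` some `g` in `Γ` has `⟪u, g v⟫ ≥ c`. -/
def Spread {E : Type*} [NormedAddCommGroup E] [InnerProductSpace ℝ E] (c : ℝ)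
    (Γ : Set (E ≃ₗᵢ[ℝ] E)) : Prop :=
  ∀ u v : E, ‖u‖ = 1 → ‖v‖ = 1 → ∃ g ∈ Γ, c ≤ ⟪u, g v⟫_ℝ

/-- `K` is invariant about `o` under the maps `g` in `Γ` applied to the block `i`. -/
def InvariantAt {r : ℕ} {m : Fin (r + 1) → ℕ} (i : Fin (r + 1))
    (Γ : Set (EuclideanSpace ℝ (Fin (m i)) ≃ₗᵢ[ℝ] EuclideanSpace ℝ (Fin (m i))))
    (K : Set (Sum m)) (o : Sum m) : Prop :=
  ∀ g ∈ Γ, ∀ x ∈ K, ∀ y : Sum m, y i - o i = g (x i - o i) → (∀ j, j ≠ i → y j = x j) → y ∈ K

/-- **Main theorem.** -/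
theorem result (r : ℕ) (m : Fin (r + 1) → ℕ) (hm : ∀ i, 1 ≤ m i) (c : Fin (r + 1) → ℝ)
    (hc : ∀ i, √(1 - 1 / (m i : ℝ) ^ 2) < c i)
    (Γ : ∀ i, Set (EuclideanSpace ℝ (Fin (m i)) ≃ₗᵢ[ℝ] EuclideanSpace ℝ (Fin (m i))))
    (hΓ : ∀ i, Spread (c i) (Γ i))
    (K : Set (Sum m)) (hK : Convex ℝ K) (hKc : IsCompact K) (o : Sum m) (ho : o ∈ interior K)
    (hinv : ∀ i, InvariantAt i (Γ i) K o) :
    ∃ L : Finset (Sum m), Illuminates L K ∧ L.card ≤ (m 0 + 1) * ∏ i : Fin r, (m i.succ + 2) ∧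
      ((∀ i, 2 ≤ m i) → ∀ h, 2 ≤ h → L.card ≤ 2 ^ (∑ i, m i) - 2 ^ (∑ i, m i - h)) := by
  classical
  set K' : Set (Sum m) := (fun x => x + o) ⁻¹' K with hK'
  have hKe : K' = (Homeomorph.addRight o) ⁻¹' K := rfl
  have hcomp : IsCompact K' := by
    rw [hKe]
    exact (Homeomorph.addRight o).isCompact_preimage.2 hKc
  have h0 : 0 ∈ interior K' := by
    rw [hKe, ← (Homeomorph.addRight o).preimage_interior]
    simpa using ho
  have hconv : Convex ℝ K' := hK.translate_preimage_left o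
  obtain ⟨L, hL, hill⟩ := Pool.Agent.H765R3.Had.Ill.illuminate r m hm c hc Γ hΓ K' hconv hcomp h0
    (by
      intro i g hg x hx y hy hj
      refine hinv i g hg (x + o) hx (y + o) ?_ fun j hji => ?_
      · rw [PiLp.add_apply, PiLp.add_apply, add_sub_cancel_right, add_sub_cancel_right, hy]
      · rw [PiLp.add_apply, PiLp.add_apply, hj j hji])
  refine ⟨L, ?_, hL, ?_⟩
  · intro x hx
    have hx' : x - o ∈ frontier K' := by
      rw [hKe, ← (Homeomorph.addRight o).preimage_frontier]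
      simpa using hx
    obtain ⟨v, hv, t, ht, h⟩ := hill _ hx'
    refine ⟨v, hv, t, ht, ?_⟩
    rw [hKe, ← (Homeomorph.addRight o).preimage_interior] at h
    have h2 : x - o + t • v + o = x + t • v := by abel
    simpa [h2] using h
  · intro h2 h hh
    have hpow : ∀ n : ℕ, 2 ≤ n → n + 2 ≤ 2 ^ n ∧ 4 * (n + 1) ≤ 3 * 2 ^ n := by
      intro n hn
      induction n, hn using Nat.le_induction with
      | base => norm_num
      | succ n hn ih => rw [pow_succ]; omega
    have h1 : ∏ i : Fin r, (m i.succ + 2) ≤ ∏ i : Fin r, 2 ^ m i.succ :=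
      Finset.prod_le_prod' fun i _ => (hpow _ (h2 i.succ)).1
    have h3 : 2 ^ (∑ i, m i) = 2 ^ m 0 * ∏ i : Fin r, 2 ^ m i.succ := by
      rw [← Finset.prod_pow_eq_pow_sum, Fin.prod_univ_succ]
    have h4 : 4 * ((m 0 + 1) * ∏ i : Fin r, (m i.succ + 2)) ≤ 3 * 2 ^ (∑ i, m i) := by
      rw [h3, ← mul_assoc, ← mul_assoc]
      exact Nat.mul_le_mul (hpow _ (h2 0)).2 h1
    have hd : 2 ≤ ∑ i, m i :=
      (h2 0).trans (Finset.single_le_sum (fun i _ => Nat.zero_le (m i)) (Finset.mem_univ 0))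
    have h5 : 2 ^ (∑ i, m i - h) ≤ 2 ^ (∑ i, m i - 2) :=
      Nat.pow_le_pow_right (by norm_num) (by omega)
    have h6 : 2 ^ (∑ i, m i) = 4 * 2 ^ (∑ i, m i - 2) := by
      rw [show (4 : ℕ) = 2 ^ 2 by norm_num, ← pow_add, Nat.add_sub_cancel' hd]
    omega

end Pool.Agent.Results.MP_80156a_co.BlockSymmetricBodies
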